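import Mathlib
import Pool.Agent.P2Gap.FinalAll

/-!
Problem MP_b14a1c_nt: the weaker version with threshold 2, for all large N and for every
fixed multiple of N.
-/

set_option autoImplicit false

namespace Pool.Agent.Results.MP_b14a1c_nt.TwoFold

open Pool.Agent.P2Gap

/-- For every `C`, for all sufficiently large `N` one can choose one residue class for every
prime `p ≤ N` so that every integer of `[1, C N]` lies in at least two of the classes. -/
theorem result :
    ∀ C : ℕ, ∃ N₀ : ℕ, ∀ N : ℕ, N₀ ≤ N → ∃ a : ℕ → ℕ, ∀ m : ℕ, 1 ≤ m → m ≤ C * N →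
      2 ≤ ((Finset.range (N + 1)).filter (fun p => p.Prime ∧ m ≡ a p [MOD p])).card := by
  intro C
  obtain ⟨E₀, hE₀⟩ := main_cover_all (8 * C + 8) (by omega)
  refine ⟨8 ^ (E₀ + 1), fun N hN => ?_⟩
  have hN0 : N ≠ 0 := by
    have : 0 < 8 ^ (E₀ + 1) := by positivity
    omega
  set E : ℕ := Nat.log 8 N with hE
  have h1 : 8 ^ E ≤ N := Nat.pow_log_le_self 8 hN0
  have h2 : N < 8 ^ (E + 1) := Nat.lt_pow_succ_log_self (by norm_num) N
  have h3 : E₀ ≤ E := by
    have : E₀ + 1 ≤ E := Nat.le_log_of_pow_le (by norm_num) hN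
    omega
  obtain ⟨a, ha⟩ := hE₀ E h3
  refine ⟨a, fun m hm1 hm2 => ?_⟩
  have h4 : m ≤ (8 * C + 8) * 8 ^ E := by
    calc m ≤ C * N := hm2
      _ ≤ C * 8 ^ (E + 1) := Nat.mul_le_mul_left _ h2.le
      _ = (8 * C) * 8 ^ E := by rw [pow_succ]; ring
      _ ≤ (8 * C + 8) * 8 ^ E := Nat.mul_le_mul_right _ (by omega)
  refine (ha m (Finset.mem_Icc.2 ⟨hm1, h4⟩)).trans (Finset.card_le_card ?_)
  intro p hp
  simp only [Finset.mem_filter, Finset.mem_Ioc, Finset.mem_range] at hp ⊢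
  exact ⟨by omega, hp.1.2, hp.2⟩

end Pool.Agent.Results.MP_b14a1c_nt.TwoFold
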